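import Pool.Agent.T2h77V.Fin
import Pool.Agent.T2h77V.Box
import Pool.Agent.T2h77V.Fac
import Pool.Agent.T2h77V.Pts
import Pool.Agent.T2h77V.Cnt
import Pool.Agent.T2h77V.IDL
import Pool.Agent.T2h77V.RED
import Pool.Agent.T2h77V.VOL
import Pool.Agent.T2h77.Div
import Pool.Agent.T2h77.VolA

/-!
# The density theorem for automorphic forms of all weights on `SL₂` over a number field, at all small primes at once

Let `K` be a number field with the ring of integers `𝓞`, `Γ₀` a congruence subgroup of `SL₂(𝓞)` of index `n`, and,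
for the primes `P` of `𝓞` of norm at most `X`, `Γ P` a congruence subgroup of `SL₂(𝓞[1/P])` with
`Γ P ∩ SL₂(𝓞) = Γ₀` (it exists for all `P` prime to the level, and is unique). Let `f_i` be linearly independent
square integrable automorphic functions for `Γ₀` on `SL₂(K ⊗ ℝ)`, of weights and with parameters at the infinite
places bounded by `L`, such that each `f_i` is an eigenfunction of the Hecke operators at SOME prime `P_i` of norm
`q_i ≤ X`, with the Satake parameters `q_i ^ τ_i`, `q_i ^ (-τ_i)`, `τ_i ≥ ε`. Then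
`∑ n ^ (2 τ_i) ≤ C X ^ A n ^ (1 + ε)`, where `A` depends on `K` only and `C` on `K`, `ε` and `L` only.

So all but `C n ^ (1 - 2 s + A η + ε)` of the forms satisfy the bound up to the factor `q ^ s` at all primes of norm
`q ≤ n ^ η` at once. For one fixed prime this is the sharp density theorem `∑ n ^ (2 τ_i) ≤ C n ^ (1 + ε)`.

The proof is the one of the density theorem at one prime (`Pool.Agent.T2h77`, `Pool.Agent.T2h74`: Hecke operators
of level `q ^ (2k) ≈ n` against counting the points of `SL₂(𝓞[1/P])`, Schur's test in the cusps), with all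
constants uniform in the prime: the boxes, the factorisations and the reduction theory are made polynomial in the
size of the region, which is a power of `q`.
-/

set_option autoImplicit false

open NumberField MeasureTheory
open scoped MatrixGroups

namespace Pool.Agent.Results.MP_4819b8_nt.DensityAllPrimes

open Pool.Agent.T2h77 Pool.Agent.T2h74 Pool.Agent.T2h77V

theorem result (K : Type) [Field K] [NumberField K] :
    ∃ A : ℕ, ∀ (ε : ℝ) (L : ℕ), 0 < ε → ∃ C : ℝ, 0 < C ∧
      ∀ (Γ₀ : Subgroup SL(2, 𝓞 K)) (𝓕 : Set (GG K)), IsFD Γ₀ 𝓕 → ∀ X : ℝ, 1 ≤ X →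
      ∀ (Γ : Ideal (𝓞 K) → Subgroup SL(2, K)) (k : ℕ) (P : Fin k → Ideal (𝓞 K))
        (N : Fin k → InfinitePlace K → ℕ) (σ : Fin k → InfinitePlace K → ℤˣ)
        (ν : Fin k → InfinitePlace K → ℂ) (τ : Fin k → ℝ) (f : Fin k → GG K → ℂ),
        (∀ i, (P i).IsPrime ∧ P i ≠ ⊥ ∧ (Ideal.absNorm (P i) : ℝ) ≤ X ∧
          IsCongrP (P i) (Γ (P i)) ∧ ic (Γ (P i)) = Γ₀) →
        (∀ i, Continuous (f i) ∧ (∀ γ ∈ Γ₀, ∀ g, f i (lm γ g) = f i g) ∧
          HasType (N i) (σ i) (ν i) (f i) ∧ IsL2 𝓕 (f i) ∧ IsHeckeEigen (P i) (Γ (P i)) (τ i) (f i)) →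
        (∀ i w, N i w ≤ L ∧ ‖ν i w‖ ≤ L) → (∀ i, ε ≤ τ i ∧ τ i ≤ 1 / 2) → LinearIndependent ℂ f →
        ∑ i, (Γ₀.index : ℝ) ^ (2 * τ i) ≤ C * X ^ A * (Γ₀.index : ℝ) ^ (1 + ε) :=
  allPrimes sdiv K (udensityT_of unimod (ured uideal) uvol (ucount (upoints ubox (ufac sdiv))) K)

end Pool.Agent.Results.MP_4819b8_nt.DensityAllPrimes
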