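import Pool.Agent.T2h77W.Top

/-!
# The number of the systems of Hecke eigenvalues of principal level which violate the Ramanujan bound

Let `K` be a number field with the ring of integers `𝓞`, and `𝔫 ≠ 0` an ideal of `𝓞`. A form of level `𝔫` is a function
on `SL₂(K ⊗ ℝ)`, invariant under the principal congruence subgroup `Γ(𝔫)`, square integrable modulo `Γ(𝔫)`, with given
weights and parameters at the infinite places. We show: the number of the DIFFERENT systems of eigenvalues of the
Hecke operators at the primes not dividing `𝔫`, which belong to forms of level `𝔫` with weights and parameters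
bounded by `L`, and which have at SOME prime `P` of norm `q ≤ X` the Satake parameters `q ^ τ`, `q ^ (- τ)` with `τ ≥ s`,
is at most `C X ^ A N(𝔫) ^ (2 - 6 s + ε)`, where `A` depends on `K` only and `C` on `K`, `ε` and `L` only.

The forms of level `U₁(𝔫)` are among the forms of level `𝔫`. There are about `N(𝔫) ^ 2` systems of level `𝔫` in general
(for totally real `K`, say), so that the exponent `2 - 6 s` is better than the one of the density hypothesis for
this family, `2 - 4 s`.

Proof: the density theorem `MP_4819b8_nt.DensityAllPrimes`, applied to the principal congruence subgroups, and a lower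
bound for the dimension of the irreducible representations of `SL₂(𝓞 ⧸ m)` which do not come from a lower level:
such a representation contains a character of the unipotent group which is nontrivial on all minimal ideals of
`𝓞 ⧸ m`, with all its conjugates under the diagonal matrices, so its dimension is at least `N(m) ^ (1 - ε)` up to a
constant.

Joint work with helper48, helper62, helper65, helper85 and helper91 (`Pool.Agent.T2h77W`).
-/

set_option autoImplicit false

open NumberField MeasureTheory
open scoped MatrixGroups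

namespace Pool.Agent.Results.MP_4819b8_nt.DistinctSystems

open Pool.Agent.T2h77 Pool.Agent.T2h74 Pool.Agent.T2h77W

theorem result (K : Type) [Field K] [NumberField K] :
    ∃ A : ℕ, ∀ (ε : ℝ) (L : ℕ), 0 < ε → ∃ C : ℝ, 0 < C ∧
      ∀ (𝔫 : Ideal (𝓞 K)), 𝔫 ≠ ⊥ → ∀ 𝓕 : Set (GG K), IsFD ⊤ 𝓕 → ∀ X s : ℝ, 1 ≤ X → ε ≤ s → s ≤ 1 / 3 →
      ∀ (k : ℕ) (N : Fin k → InfinitePlace K → ℕ) (σ : Fin k → InfinitePlace K → ℤˣ)
        (ν : Fin k → InfinitePlace K → ℂ) (c : Fin k → Ideal (𝓞 K) → ℕ → ℂ) (f : Fin k → GG K → ℂ),
        (∀ i, f i ≠ 0 ∧ IsForm 𝔫 𝓕 (N i) (σ i) (ν i) (f i) ∧ IsSystem 𝔫 (c i) (f i)) →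
        (∀ i w, N i w ≤ L ∧ ‖ν i w‖ ≤ L) → (∀ i, Violates 𝔫 X s (c i)) →
        (∀ i j, i ≠ j → Distinct 𝔫 (c i) (c j)) →
        (k : ℝ) ≤ C * X ^ A * (Ideal.absNorm 𝔫 : ℝ) ^ (2 - 6 * s + ε) :=
  top K

end Pool.Agent.Results.MP_4819b8_nt.DistinctSystems
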