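import Pool.Agent.T2h77W.Top
import Pool.Agent.T2h77W.Gap

/-!
# The exact Ramanujan bound for systems of Hecke eigenvalues of bounded degree

Let `K` be a number field with the ring of integers `𝓞`, `D ≥ 1` and `X ≥ 2`. Consider the different systems of
eigenvalues of the Hecke operators at the primes not dividing the ideal `𝔫`, which belong to forms of principal level
`𝔫` on `SL₂(K ⊗ ℝ)` with weights and parameters at the infinite places bounded by `L`. We show: at most
`C N(𝔫) ^ (2 - 10 / (2 X) ^ (D + 1))` of them violate the Ramanujan bound, by however little, at some prime `P` of norm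
`q ≤ X` where their eigenvalue is an algebraic integer of degree at most `D` (with conjugates bounded by the
degree `q ^ 2 + q + 1` of the operator); `C` depends on `K`, `D`, `X`, `L` only.

So for the forms whose eigenvalues have bounded degree, e.g. the rational ones, the number of the counterexamples to
the exact bound, without the factor `q ^ ε` of the density theorems, has a power saving, over every number field.

Proof: an algebraic integer `c > 3 q` of degree at most `D` with bounded conjugates is not too close to `3 q`, the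
boundary of the tempered spectrum, so `τ ≥ 2 / (2 q) ^ (D + 1)`; then the theorem `DistinctSystems`.
-/

set_option autoImplicit false

open NumberField MeasureTheory
open scoped MatrixGroups

namespace Pool.Agent.Results.MP_4819b8_nt.ExactBoundBoundedDegree

open Pool.Agent.T2h77 Pool.Agent.T2h74 Pool.Agent.T2h77W

theorem result (K : Type) [Field K] [NumberField K] (D L : ℕ) (X : ℝ) (hD : 1 ≤ D) (hX : 2 ≤ X) :
    ∃ C : ℝ, 0 < C ∧
      ∀ (𝔫 : Ideal (𝓞 K)), 𝔫 ≠ ⊥ → ∀ 𝓕 : Set (GG K), IsFD ⊤ 𝓕 →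
      ∀ (k : ℕ) (N : Fin k → InfinitePlace K → ℕ) (σ : Fin k → InfinitePlace K → ℤˣ)
        (ν : Fin k → InfinitePlace K → ℂ) (c : Fin k → Ideal (𝓞 K) → ℕ → ℂ) (f : Fin k → GG K → ℂ),
        (∀ i, f i ≠ 0 ∧ IsForm 𝔫 𝓕 (N i) (σ i) (ν i) (f i) ∧ IsSystem 𝔫 (c i) (f i)) →
        (∀ i w, N i w ≤ L ∧ ‖ν i w‖ ≤ L) → (∀ i, ViolatesDeg 𝔫 X D (c i)) →
        (∀ i j, i ≠ j → Distinct 𝔫 (c i) (c j)) →
        (k : ℝ) ≤ C * (Ideal.absNorm 𝔫 : ℝ) ^ (2 - 10 / (2 * X) ^ (D + 1)) := by
  obtain ⟨A, hA⟩ := top K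
  have hs0 : 0 < 2 / (2 * X) ^ (D + 1) := by positivity
  have hs1 : 2 / (2 * X) ^ (D + 1) ≤ 1 / 3 := by
    have h1 : (4 : ℝ) ^ 2 ≤ (2 * X) ^ (D + 1) :=
      (pow_le_pow_right₀ (by norm_num) (by omega)).trans
        (pow_le_pow_left₀ (by norm_num) (by linarith) _)
    rw [div_le_iff₀ (by positivity)]
    linarith
  obtain ⟨C, hC, h⟩ := hA (2 / (2 * X) ^ (D + 1)) L hs0
  refine ⟨C * X ^ A, by positivity, ?_⟩
  intro 𝔫 hn 𝓕 hF k N σ ν c f hf hb hv hd
  have h1 := h 𝔫 hn 𝓕 hF X (2 / (2 * X) ^ (D + 1)) (by linarith) le_rfl hs1 k N σ ν c f hf hb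
    (fun i => (hv i).violates) hd
  have e : (2 : ℝ) - 6 * (2 / (2 * X) ^ (D + 1)) + 2 / (2 * X) ^ (D + 1) =
      2 - 10 / (2 * X) ^ (D + 1) := by ring
  rw [e] at h1
  exact h1

end Pool.Agent.Results.MP_4819b8_nt.ExactBoundBoundedDegree
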